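import Pool.Agent.Helper53.PT.GoalsB

/-!
# Packet PT-CH: chords
-/

namespace Pool.Agent.Helper61.PT

open Pool.Agent.Helper53.PT Set Filter Topology

/-- A function whose derivative increases at rate at most `L` is above its chord minus `h²/8 L`. -/
theorem chord_ge {g g' : ℝ → ℝ} {x0 h l L : ℝ} (hh : 0 < h) (hl0 : 0 ≤ l) (hl1 : l ≤ 1)
    (hL : 0 ≤ L) (hg : ∀ x, HasDerivAt g (g' x) x)
    (hg' : ∀ x y, x0 ≤ x → x ≤ y → y ≤ x0 + h → g' y - g' x ≤ L * (y - x)) :
    (1 - l) * g x0 + l * g (x0 + h) - h ^ 2 / 8 * L ≤ g (x0 + l * h) := by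
  have hu : ∀ x, HasDerivAt (fun x => g x - L / 2 * x ^ 2) (g' x - L * x) x := by
    intro x
    have h1 := (hg x).sub ((hasDerivAt_pow 2 x).const_mul (L / 2))
    refine h1.congr_deriv ?_
    push_cast
    ring
  have hc : ConcaveOn ℝ (Icc x0 (x0 + h)) (fun x => g x - L / 2 * x ^ 2) := by
    refine AntitoneOn.concaveOn_of_deriv (convex_Icc _ _) ?_ ?_ ?_
    · exact fun x _ => (hu x).continuousAt.continuousWithinAt
    · exact fun x _ => (hu x).differentiableAt.differentiableWithinAt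
    · intro x hx y hy hxy
      rw [interior_Icc] at hx hy
      rw [(hu x).deriv, (hu y).deriv]
      have := hg' x y hx.1.le hxy hy.2.le
      linarith
  have h1 := hc.2 (left_mem_Icc.2 (by linarith)) (right_mem_Icc.2 (by linarith))
    (by linarith : 0 ≤ 1 - l) hl0 (by ring : 1 - l + l = 1)
  simp only [smul_eq_mul] at h1
  have e1 : (1 - l) * x0 + l * (x0 + h) = x0 + l * h := by ring
  rw [e1] at h1
  have h2 : 0 ≤ (l - 1 / 2) ^ 2 := sq_nonneg _
  have h3 : 0 ≤ L * h ^ 2 * (l - 1 / 2) ^ 2 := by positivity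
  nlinarith [h1, h3]

theorem chord_abs {g g' : ℝ → ℝ} {x0 h l L : ℝ} (hh : 0 < h) (hl0 : 0 ≤ l) (hl1 : l ≤ 1)
    (hL : 0 ≤ L) (hg : ∀ x, HasDerivAt g (g' x) x)
    (hg' : ∀ x y, x0 ≤ x → x ≤ y → y ≤ x0 + h → |g' y - g' x| ≤ L * (y - x)) :
    |g (x0 + l * h) - ((1 - l) * g x0 + l * g (x0 + h))| ≤ h ^ 2 / 8 * L := by
  have h1 := chord_ge hh hl0 hl1 hL hg (fun x y a b c => (abs_le.1 (hg' x y a b c)).2)
  have h2 := chord_ge (g := fun x => -g x) (g' := fun x => -g' x) hh hl0 hl1 hL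
    (fun x => (hg x).neg) (fun x y a b c => by
      have := (abs_le.1 (hg' x y a b c)).1
      linarith)
  rw [abs_le]
  constructor <;> linarith

/-- mean value inequality on `[a,b]` -/
theorem mv {g g' : ℝ → ℝ} {a b C : ℝ} (hg : ∀ x, HasDerivAt g (g' x) x)
    (hC : ∀ x, a ≤ x → x ≤ b → |g' x| ≤ C) :
    ∀ x y, a ≤ x → x ≤ y → y ≤ b → |g y - g x| ≤ C * (y - x) := by
  intro x y hx hxy hy
  have := Convex.norm_image_sub_le_of_norm_hasDerivWithin_le (f := g) (f' := g') (C := C)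
    (s := Icc a b) (x := x) (y := y) (fun z _ => (hg z).hasDerivWithinAt)
    (fun z hz => by rw [Real.norm_eq_abs]; exact hC z hz.1 hz.2) (convex_Icc a b)
    ⟨hx, hxy.trans hy⟩ ⟨hx.trans hxy, hy⟩
  rw [Real.norm_eq_abs, Real.norm_eq_abs, abs_of_nonneg (by linarith : 0 ≤ y - x)] at this
  exact this

section
variable {θ : ℝ} (h0 : 0 < θ) (h1 : θ < 1 / 2)
include h0 h1

theorem f3_diff : ∃ f4 : ℝ → ℝ, (∀ x, HasDerivAt (f3 θ) (f4 x) x) ∧
    ∀ x, 0 < x → |f4 x| ≤ mo θ 4 / 840 := by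
  have e0 := Pool.Agent.Helper69.PT.ent0 aMO h0 h1
  have e1 : Pool.Agent.Helper69.PT.Ent (Pool.Agent.Helper69.PT.c1 θ) := by
    refine (e0.dc.smul (-2)).congr fun j => ?_
    rw [Pool.Agent.Helper69.PT.dc0]; ring
  have e2 : Pool.Agent.Helper69.PT.Ent (Pool.Agent.Helper69.PT.c2 θ) :=
    e1.dc.congr fun j => (Pool.Agent.Helper69.PT.dc1 θ j).symm
  have e3 : Pool.Agent.Helper69.PT.Ent (Pool.Agent.Helper69.PT.c3 θ) :=
    e2.dc.congr fun j => (Pool.Agent.Helper69.PT.dc2 θ j).symm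
  refine ⟨fun x => ∑' j, Pool.Agent.Helper69.PT.dc (Pool.Agent.Helper69.PT.c3 θ) j * x ^ j,
    fun x => ?_, fun x hx => ?_⟩
  · rw [Pool.Agent.Helper69.PT.f3_eq]
    exact e3.hasDerivAt x
  · have hd : HasDerivAt (f3 θ)
        (∑' j, Pool.Agent.Helper69.PT.dc (Pool.Agent.Helper69.PT.c3 θ) j * x ^ j) x := by
      rw [Pool.Agent.Helper69.PT.f3_eq]
      exact e3.hasDerivAt x
    have hp : 0 < mo θ 4 := mo_pos h0 (by linarith) 4
    have := hd.le_of_lip' (C := mo θ 4 / 840) (by positivity) (by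
      filter_upwards [lt_mem_nhds hx] with y hy
      rw [Real.norm_eq_abs, Real.norm_eq_abs]
      have := (aBD h0 h1 hx.le).2.2.2.2.2.2.2.2 y (le_of_lt hy)
      rw [abs_sub_comm, abs_sub_comm y x]
      exact this)
    rw [Real.norm_eq_abs] at this
    exact this

end

theorem hasDerivAt_Wf {θ : ℝ} (h0 : 0 < θ) (h1 : θ < 1 / 2) (x : ℝ) :
    HasDerivAt (Wf θ) (f1 θ x * f2 θ x / 2 + f0 θ x * f3 θ x) x := by
  have h2 := (((hasDerivAt_f1 h0 h1 x).pow 2).div_const 2).add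
    ((hasDerivAt_f0 h0 h1 x).mul (hasDerivAt_f2 h0 h1 x))
  have e : Wf θ = ((fun x => f1 θ x ^ 2 / 2) + (f0 θ) * (f2 θ)) := by
    funext x
    simp [Wf]
  rw [e]
  refine h2.congr_deriv ?_
  push_cast
  ring

/-- integration of a bound -/
theorem step {ψ ψ' B B' : ℝ → ℝ} (h : ∀ s, HasDerivAt ψ (ψ' s) s) (hB : ∀ s, HasDerivAt B (B' s) s)
    (h0 : ψ 0 = 0) (hB0 : B 0 = 0) (hb : ∀ s, 0 ≤ s → s ≤ 1 → |ψ' s| ≤ B' s) :
    ∀ s, 0 ≤ s → s ≤ 1 → |ψ s| ≤ B s := by
  intro s hs0 hs1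
  have := image_norm_le_of_norm_deriv_right_le_deriv_boundary (f := ψ) (f' := ψ') (a := 0) (b := 1)
    (fun x _ => (h x).continuousAt.continuousWithinAt) (fun x _ => (h x).hasDerivWithinAt)
    (B := B) (B' := B') (by rw [h0, hB0, norm_zero]) hB
    (fun x hx => by rw [Real.norm_eq_abs]; exact hb x hx.1 hx.2.le) (x := s) ⟨hs0, hs1⟩
  rw [Real.norm_eq_abs] at this
  exact this

theorem taylor {θ : ℝ} (h0 : 0 < θ) (h1 : θ < 1 / 2) {x0 d : ℝ} (hx0 : 0 ≤ x0) (hd : 0 ≤ x0 + d) :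
    |f0 θ (x0 + d) - (f0 θ x0 - f1 θ x0 / 2 * d - f2 θ x0 / 4 * d ^ 2)| ≤
    |d| ^ 3 / 12 * (mo θ 3 / 60) := by
  have hbd : ∀ x, 0 ≤ x → |f3 θ x| ≤ mo θ 3 / 60 := fun x hx => (aBD h0 h1 hx).2.2.2.2.2.2.2.1
  have hin : ∀ s, HasDerivAt (fun s : ℝ => x0 + s * d) d s := by
    intro s
    have := ((hasDerivAt_id s).mul_const d).const_add x0
    simpa using this
  have D0 : ∀ s, HasDerivAt (fun s : ℝ => f0 θ (x0 + s * d)) (-(f1 θ (x0 + s * d)) / 2 * d) s :=
    fun s => by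
      have := HasDerivAt.comp (h₂ := f0 θ) s (hasDerivAt_f0 h0 h1 (x0 + s * d)) (hin s)
      exact this
  have D1 : ∀ s, HasDerivAt (fun s : ℝ => f1 θ (x0 + s * d)) (f2 θ (x0 + s * d) * d) s :=
    fun s => by
      have := HasDerivAt.comp (h₂ := f1 θ) s (hasDerivAt_f1 h0 h1 (x0 + s * d)) (hin s)
      exact this
  have D2 : ∀ s, HasDerivAt (fun s : ℝ => f2 θ (x0 + s * d)) (f3 θ (x0 + s * d) * d) s :=
    fun s => by
      have := HasDerivAt.comp (h₂ := f2 θ) s (hasDerivAt_f2 h0 h1 (x0 + s * d)) (hin s)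
      exact this
  set C : ℝ := |d| ^ 3 / 2 * (mo θ 3 / 60) with hC
  -- second derivative
  have s2 := step (ψ := fun s => d ^ 2 * (-(f2 θ (x0 + s * d)) / 2 + f2 θ x0 / 2))
    (ψ' := fun s => d ^ 2 * (-(f3 θ (x0 + s * d) * d) / 2)) (B := fun s => C * s) (B' := fun _ => C)
    (fun s => ((((D2 s).neg).div_const 2).add_const (f2 θ x0 / 2)).const_mul (d ^ 2))
    (fun s => by simpa using (hasDerivAt_id s).const_mul C)
    (by simp only [zero_mul, add_zero]; ring) (by simp)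
    (fun s hs0 hs1 => by
      have hy : 0 ≤ x0 + s * d := by nlinarith
      have := hbd _ hy
      have e : |d ^ 2 * (-(f3 θ (x0 + s * d) * d) / 2)| = |d| ^ 3 / 2 * |f3 θ (x0 + s * d)| := by
        rw [abs_mul, abs_div, abs_neg, abs_mul, abs_pow, abs_two]
        ring
      rw [e]
      exact mul_le_mul_of_nonneg_left this (by positivity))
  have s1 := step (ψ := fun s => d * (-(f1 θ (x0 + s * d)) / 2 + f1 θ x0 / 2 + f2 θ x0 / 2 * (s * d)))
    (ψ' := fun s => d ^ 2 * (-(f2 θ (x0 + s * d)) / 2 + f2 θ x0 / 2)) (B := fun s => C / 2 * s ^ 2)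
    (B' := fun s => C * s)
    (fun s => by
      have h2 := (((((D1 s).neg).div_const 2).add_const (f1 θ x0 / 2)).add
        ((((hasDerivAt_id s).mul_const d)).const_mul (f2 θ x0 / 2))).const_mul d
      refine h2.congr_deriv ?_
      ring)
    (fun s => by
      have h2 := (hasDerivAt_pow 2 s).const_mul (C / 2)
      refine h2.congr_deriv ?_
      push_cast
      ring)
    (by simp only [zero_mul, add_zero, mul_zero]; ring) (by simp) s2
  have s0 := step (ψ := fun s => f0 θ (x0 + s * d) - (f0 θ x0 - f1 θ x0 / 2 * (s * d) -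
      f2 θ x0 / 4 * (s * d) ^ 2))
    (ψ' := fun s => d * (-(f1 θ (x0 + s * d)) / 2 + f1 θ x0 / 2 + f2 θ x0 / 2 * (s * d)))
    (B := fun s => C / 6 * s ^ 3) (B' := fun s => C / 2 * s ^ 2)
    (fun s => by
      have h3 := (hasDerivAt_id s).mul_const d
      have h2 := (D0 s).sub ((((h3.const_mul (f1 θ x0 / 2))).const_sub (f0 θ x0)).sub
        ((h3.pow 2).const_mul (f2 θ x0 / 4)))
      refine h2.congr_deriv ?_
      simp only [id]
      push_cast
      ring)
    (fun s => by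
      have h2 := (hasDerivAt_pow 3 s).const_mul (C / 6)
      refine h2.congr_deriv ?_
      push_cast
      ring)
    (by simp only [zero_mul, add_zero, mul_zero]; ring) (by simp) s1 1 zero_le_one le_rfl
  simp only [one_mul] at s0
  calc _ ≤ _ := s0
    _ = |d| ^ 3 / 12 * (mo θ 3 / 60) := by rw [hC]; ring

theorem gCH : GCH := by
  intro θ h0 h1 x0 h l S F hx0 hh hl0 hl1
  have hm4 : 0 < mo θ 4 := mo_pos h0 (by linarith) 4
  have hm3 : 0 < mo θ 3 := mo_pos h0 (by linarith) 3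
  have hbd : ∀ x, 0 ≤ x → |f3 θ x| ≤ mo θ 3 / 60 := fun x hx => (aBD h0 h1 hx).2.2.2.2.2.2.2.1
  refine ⟨?_, ?_, ?_⟩
  · have h2 := chord_abs (L := mo θ 4 / 840) hh hl0 hl1 (by positivity)
      (fun x => hasDerivAt_f2 h0 h1 x) (fun x y hx hxy _ => by
        have := (aBD h0 h1 (hx0.trans (hx.trans hxy))).2.2.2.2.2.2.2.2 x (hx0.trans hx)
        rw [abs_of_nonneg (by linarith : 0 ≤ y - x)] at this
        exact this)
    have h3 : |(1 - l) * f2 θ x0 + l * f2 θ (x0 + h)| ≤ max |f2 θ x0| |f2 θ (x0 + h)| := by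
      calc |(1 - l) * f2 θ x0 + l * f2 θ (x0 + h)|
          ≤ |(1 - l) * f2 θ x0| + |l * f2 θ (x0 + h)| := abs_add_le _ _
        _ = (1 - l) * |f2 θ x0| + l * |f2 θ (x0 + h)| := by
            rw [abs_mul, abs_mul, abs_of_nonneg (by linarith : 0 ≤ 1 - l), abs_of_nonneg hl0]
        _ ≤ (1 - l) * max |f2 θ x0| |f2 θ (x0 + h)| + l * max |f2 θ x0| |f2 θ (x0 + h)| :=
            add_le_add (mul_le_mul_of_nonneg_left (le_max_left _ _) (by linarith))
              (mul_le_mul_of_nonneg_left (le_max_right _ _) hl0)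
        _ = max |f2 θ x0| |f2 θ (x0 + h)| := by ring
    have h4 : |f2 θ (x0 + l * h)| ≤ |f2 θ (x0 + l * h) - ((1 - l) * f2 θ x0 + l * f2 θ (x0 + h))| +
        |(1 - l) * f2 θ x0 + l * f2 θ (x0 + h)| := by
      have := abs_add_le (f2 θ (x0 + l * h) - ((1 - l) * f2 θ x0 + l * f2 θ (x0 + h)))
        ((1 - l) * f2 θ x0 + l * f2 θ (x0 + h))
      rw [sub_add_cancel] at this
      exact this
    linarith
  · intro hS
    have hS0 : 0 ≤ S := (abs_nonneg _).trans (hS x0 le_rfl (by linarith))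
    have hmv := mv (a := x0) (b := x0 + h) (fun x => hasDerivAt_f1 h0 h1 x) hS
    have hmv2 := mv (a := x0) (b := x0 + h) (C := mo θ 3 / 60) (fun x => hasDerivAt_f2 h0 h1 x)
      (fun x hx _ => hbd x (hx0.trans hx))
    refine ⟨?_, ?_, ?_, ?_⟩
    · have := chord_abs (L := S / 2) hh hl0 hl1 (by positivity)
        (fun x => hasDerivAt_f0 h0 h1 x) (fun x y hx hxy hy => by
          have h2 := abs_le.1 (hmv x y hx hxy hy)
          rw [abs_le]
          constructor <;> linarith)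
      calc _ ≤ _ := this
        _ = h ^ 2 / 16 * S := by ring
    · exact chord_abs (L := mo θ 3 / 60) hh hl0 hl1 (by positivity)
        (fun x => hasDerivAt_f1 h0 h1 x) hmv2
    · have hlh : 0 ≤ l * h := mul_nonneg hl0 hh.le
      have hlh' : l * h ≤ h := by nlinarith
      have h2 := hmv x0 (x0 + l * h) le_rfl (by linarith) (by linarith)
      have h3 := hmv (x0 + l * h) (x0 + h) (by linarith) (by linarith) le_rfl
      have e : f1 θ (x0 + l * h) - ((1 - l) * f1 θ x0 + l * f1 θ (x0 + h)) =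
        (1 - l) * (f1 θ (x0 + l * h) - f1 θ x0) - l * (f1 θ (x0 + h) - f1 θ (x0 + l * h)) := by ring
      rw [e]
      have h4 : |(1 - l) * (f1 θ (x0 + l * h) - f1 θ x0)| ≤ (1 - l) * (S * (x0 + l * h - x0)) := by
        rw [abs_mul, abs_of_nonneg (by linarith : 0 ≤ 1 - l)]
        exact mul_le_mul_of_nonneg_left h2 (by linarith)
      have h5 : |l * (f1 θ (x0 + h) - f1 θ (x0 + l * h))| ≤ l * (S * (x0 + h - (x0 + l * h))) := by
        rw [abs_mul, abs_of_nonneg hl0]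
        exact mul_le_mul_of_nonneg_left h3 hl0
      have h6 := abs_sub ((1 - l) * (f1 θ (x0 + l * h) - f1 θ x0))
        (l * (f1 θ (x0 + h) - f1 θ (x0 + l * h)))
      have h7 : 0 ≤ S * h * (l - 1 / 2) ^ 2 := by positivity
      nlinarith
    · intro hF
      have hF0 : 0 ≤ F := (abs_nonneg _).trans (hF x0 le_rfl (by linarith))
      obtain ⟨f4, hf4, hb4⟩ := f3_diff h0 h1
      refine chord_ge hh hl0 hl1 (by positivity) (fun x => hasDerivAt_Wf h0 h1 x) ?_
      have hd : ∀ x, HasDerivAt (fun x => f1 θ x * f2 θ x / 2 + f0 θ x * f3 θ x)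
          (f2 θ x ^ 2 / 2 + f0 θ x * f4 x) x := by
        intro x
        have h2 := (((hasDerivAt_f1 h0 h1 x).mul (hasDerivAt_f2 h0 h1 x)).div_const 2).add
          ((hasDerivAt_f0 h0 h1 x).mul (hf4 x))
        refine h2.congr_deriv ?_
        ring
      intro x y hx hxy hy
      refine Convex.image_sub_le_mul_sub_of_deriv_le (convex_Icc x0 (x0 + h))
        (fun z _ => (hd z).continuousAt.continuousWithinAt)
        (fun z _ => (hd z).differentiableAt.differentiableWithinAt) (fun z hz => ?_)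
        x ⟨hx, hxy.trans hy⟩ y ⟨hx.trans hxy, hy⟩ hxy
      rw [interior_Icc] at hz
      rw [(hd z).deriv]
      have h2 : f2 θ z ^ 2 ≤ S ^ 2 := by
        rw [← sq_abs]
        exact pow_le_pow_left₀ (abs_nonneg _) (hS z hz.1.le hz.2.le) 2
      have h3 : f0 θ z * f4 z ≤ F * (mo θ 4 / 840) := by
        calc f0 θ z * f4 z ≤ |f0 θ z * f4 z| := le_abs_self _
          _ = |f0 θ z| * |f4 z| := abs_mul _ _
          _ ≤ F * (mo θ 4 / 840) := mul_le_mul (hF z hz.1.le hz.2.le)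
              (hb4 z (lt_of_le_of_lt hx0 hz.1)) (abs_nonneg _) hF0
      linarith
  · exact fun d hd => taylor h0 h1 hx0 hd

end Pool.Agent.Helper61.PT
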