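import Pool.Agent.Helper53.PT.GoalsB

/-!
# Packet PT-RL: `rr = f1/f0`, `-log f0`, `lam`
-/

namespace Pool.Agent.Helper61.PT

open Pool.Agent.Helper53.PT Set Filter Topology

theorem pow_pos_of_ne {a : ℝ} (h : a ≠ 0) : 0 < a ^ 2 := by positivity

theorem gRL : GRL := by
  intro θ z m xW xD yN h
  have h0 : 0 < θ := lt_of_lt_of_le (by norm_num) h.th0
  have h1 : θ < 1 / 2 := h.th1
  have hz0 := h.z0
  have hzm := h.zm
  have d0 := fun x => hasDerivAt_f0 h0 h1 x
  have d1 := fun x => hasDerivAt_f1 h0 h1 x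
  -- (1)
  have c1 : StrictAntiOn (f0 θ) (Icc 0 m) := by
    refine strictAntiOn_of_deriv_neg (convex_Icc 0 m) (continuous_f0 h0 h1).continuousOn ?_
    intro x hx
    rw [interior_Icc] at hx
    rw [(d0 x).deriv]
    have := h.s1 x hx.1.le hx.2
    linarith
  have c2 : ∀ x, 0 ≤ x → x < z → 0 < f0 θ x := by
    intro x hx hxz
    have := c1 (a := x) (b := z) ⟨hx, by linarith⟩ ⟨hz0.le, hzm.le⟩ hxz
    rw [h.fz] at this
    exact this
  have c3 : ∀ x, z < x → x ≤ yN → f0 θ x < 0 := by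
    intro x hx hxy
    rcases le_total x m with hm | hm
    · have := c1 (a := z) (b := x) ⟨hz0.le, hzm.le⟩ ⟨by linarith, hm⟩ hx
      rw [h.fz] at this
      exact this
    · exact h.N x hm hxy
  have c5 : ∀ x, f0 θ x ≠ 0 → HasDerivAt (rr θ) (Wf θ x / f0 θ x ^ 2) x := by
    intro x hx
    have h2 := (d1 x).div (d0 x) hx
    refine h2.congr_deriv ?_
    unfold Wf
    congr 1
    ring
  have hW0 : ∀ x, 0 ≤ x → x < z → 0 < Wf θ x := fun x hx hxz => h.W x hx (hxz.le.trans h.zW)
  have c6 : StrictMonoOn (rr θ) (Ico 0 z) := by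
    refine strictMonoOn_of_deriv_pos (convex_Ico 0 z)
      (fun x hx => (c5 x (c2 x hx.1 hx.2).ne').continuousAt.continuousWithinAt) ?_
    intro x hx
    rw [interior_Ico] at hx
    have hp := c2 x hx.1.le hx.2
    rw [(c5 x hp.ne').deriv]
    exact div_pos (hW0 x hx.1.le hx.2) (by positivity)
  have c7 : StrictMonoOn (rr θ) (Ioc z xW) := by
    refine strictMonoOn_of_deriv_pos (convex_Ioc z xW)
      (fun x hx => (c5 x (c3 x hx.1 (hx.2.trans h.WN)).ne).continuousAt.continuousWithinAt) ?_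
    intro x hx
    rw [interior_Ioc] at hx
    have hp := c3 x hx.1 (hx.2.le.trans h.WN)
    rw [(c5 x hp.ne).deriv]
    exact div_pos (h.W x (hz0.le.trans hx.1.le) hx.2.le) (pow_pos_of_ne hp.ne)
  have hr0 : rr θ 0 = 1 := by
    unfold rr
    rw [f0_zero h0 h1, f1_zero h0 h1, div_one]
  have hr1 : ∀ x, 0 ≤ x → x < z → 1 ≤ rr θ x := by
    intro x hx hxz
    have := c6.monotoneOn (a := 0) (b := x) ⟨le_rfl, hz0⟩ ⟨hx, hxz⟩ hx
    rw [hr0] at this
    exact this
  have hr2 : ∀ x, 0 < x → x < z → 1 < rr θ x := by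
    intro x hx hxz
    have := c6 (a := 0) (b := x) ⟨le_rfl, hz0⟩ ⟨hx.le, hxz⟩ hx
    rw [hr0] at this
    exact this
  have c4 : ∀ x, 0 < x → x ≤ xD → f0 θ x < f1 θ x := by
    intro x hx hxD
    rcases lt_or_ge x z with hz | hz
    · have h2 := hr2 x hx hz
      unfold rr at h2
      rwa [lt_div_iff₀ (c2 x hx.le hz), one_mul] at h2
    · rcases lt_or_ge x m with hm | hm
      · have h2 := h.s1 x hx.le hm
        have h3 : f0 θ x ≤ 0 := by
          have := c1.antitoneOn (a := z) (b := x) ⟨hz0.le, hzm.le⟩ ⟨hx.le, hm.le⟩ hz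
          rw [h.fz] at this
          exact this
        linarith
      · exact h.D x hm hxD
  -- derivative of `-log f0`
  have dL : ∀ x, 0 ≤ x → x < z → HasDerivAt (fun x => -Real.log (f0 θ x)) (rr θ x / 2) x := by
    intro x hx hxz
    have h2 := ((d0 x).log (c2 x hx hxz).ne').neg
    refine h2.congr_deriv ?_
    unfold rr
    ring
  have dL2 : ∀ x, z < x → x ≤ yN → HasDerivAt (fun x => Real.log (-f0 θ x)) (-(rr θ x) / 2) x := by
    intro x hx hxz
    have hn := c3 x hx hxz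
    have h3 : HasDerivAt (fun x => -f0 θ x) (-(-(f1 θ x) / 2)) x := (d0 x).neg
    have h2 := h3.log (neg_ne_zero.2 hn.ne)
    refine h2.congr_deriv ?_
    unfold rr
    have : f0 θ x ≠ 0 := hn.ne
    field_simp
  have dl : ∀ x, 0 ≤ x → x < z → HasDerivAt (lam θ) ((rr θ x - 1) / 2) x := by
    intro x hx hxz
    have h2 := (dL x hx hxz).sub ((hasDerivAt_id x).div_const 2)
    refine h2.congr_deriv ?_
    ring
  have c8 : ConvexOn ℝ (Ico 0 z) (fun x => -Real.log (f0 θ x)) := by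
    refine MonotoneOn.convexOn_of_deriv (convex_Ico 0 z)
      (fun x hx => (dL x hx.1 hx.2).continuousAt.continuousWithinAt) ?_ ?_
    · intro x hx
      rw [interior_Ico] at hx
      exact (dL x hx.1.le hx.2).differentiableAt.differentiableWithinAt
    · intro x hx y hy hxy
      rw [interior_Ico] at hx hy
      rw [(dL x hx.1.le hx.2).deriv, (dL y hy.1.le hy.2).deriv]
      have := c6.monotoneOn (a := x) (b := y) ⟨hx.1.le, hx.2⟩ ⟨hy.1.le, hy.2⟩ hxy
      linarith
  have c9 : ConcaveOn ℝ (Ioc z xW) (fun x => Real.log (-f0 θ x)) := by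
    refine AntitoneOn.concaveOn_of_deriv (convex_Ioc z xW)
      (fun x hx => (dL2 x hx.1 (hx.2.trans h.WN)).continuousAt.continuousWithinAt) ?_ ?_
    · intro x hx
      rw [interior_Ioc] at hx
      exact (dL2 x hx.1 (hx.2.le.trans h.WN)).differentiableAt.differentiableWithinAt
    · intro x hx y hy hxy
      rw [interior_Ioc] at hx hy
      rw [(dL2 x hx.1 (hx.2.le.trans h.WN)).deriv, (dL2 y hy.1 (hy.2.le.trans h.WN)).deriv]
      have := c7.monotoneOn (a := x) (b := y) ⟨hx.1, hx.2.le⟩ ⟨hy.1, hy.2.le⟩ hxy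
      linarith
  have c15 : lam θ 0 = 0 := by
    unfold lam
    rw [f0_zero h0 h1, Real.log_one]
    ring
  have c12 : ConvexOn ℝ (Ico 0 z) (lam θ) := by
    refine MonotoneOn.convexOn_of_deriv (convex_Ico 0 z)
      (fun x hx => (dl x hx.1 hx.2).continuousAt.continuousWithinAt) ?_ ?_
    · intro x hx
      rw [interior_Ico] at hx
      exact (dl x hx.1.le hx.2).differentiableAt.differentiableWithinAt
    · intro x hx y hy hxy
      rw [interior_Ico] at hx hy
      rw [(dl x hx.1.le hx.2).deriv, (dl y hy.1.le hy.2).deriv]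
      have := c6.monotoneOn (a := x) (b := y) ⟨hx.1.le, hx.2⟩ ⟨hy.1.le, hy.2⟩ hxy
      linarith
  have c13 : MonotoneOn (lam θ) (Ico 0 z) := by
    refine monotoneOn_of_deriv_nonneg (convex_Ico 0 z)
      (fun x hx => (dl x hx.1 hx.2).continuousAt.continuousWithinAt) ?_ ?_
    · intro x hx
      rw [interior_Ico] at hx
      exact (dl x hx.1.le hx.2).differentiableAt.differentiableWithinAt
    · intro x hx
      rw [interior_Ico] at hx
      rw [(dl x hx.1.le hx.2).deriv]
      have := hr1 x hx.1.le hx.2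
      linarith
  have c14 : ∀ x, 0 ≤ x → x < z → 0 ≤ lam θ x := by
    intro x hx hxz
    have := c13 (a := 0) (b := x) ⟨le_rfl, hz0⟩ ⟨hx, hxz⟩ hx
    rw [c15] at this
    exact this
  have c10 : ∀ x, 0 ≤ x → x < z → f0 θ x ≤ Real.exp (-x / 2) := by
    intro x hx hxz
    have h2 := c14 x hx hxz
    unfold lam at h2
    rw [← Real.log_le_iff_le_exp (c2 x hx hxz)]
    linarith
  have c11 : ∀ x, 0 < x → x < z → -Real.log (f0 θ x) ≤ x * rr θ x / 2 := by
    intro x hx hxz
    obtain ⟨c, hc, he⟩ := exists_hasDerivAt_eq_slope (fun x => -Real.log (f0 θ x))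
      (fun x => rr θ x / 2) hx
      (fun y hy => (dL y hy.1 (lt_of_le_of_lt hy.2 hxz)).continuousAt.continuousWithinAt)
      (fun y hy => dL y hy.1.le (hy.2.trans hxz))
    have h2 := c6.monotoneOn (a := c) (b := x) ⟨hc.1.le, hc.2.trans hxz⟩ ⟨hx.le, hxz⟩ hc.2.le
    simp only [f0_zero h0 h1, Real.log_one, neg_zero, sub_zero] at he
    rw [eq_div_iff hx.ne'] at he
    nlinarith
  exact ⟨c1, c2, c3, c4, c5, c6, c7, c8, c9, c10, c11, c12, c13, c14, c15⟩

end Pool.Agent.Helper61.PT
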