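import Pool.Agent.Helper53.PT.GoalsC
import Pool.Agent.Helper53.PT.B

/-!
# MP_705522_gt, `q ∈ (2,4)`: packet TNN (lower bound of the sums at the diagonals)
-/

set_option autoImplicit false

namespace Pool.Agent.Helper61.PT

open MeasureTheory Set Filter Topology
open Pool.Agent.Helper53.PT

namespace TNNaux

lemma vR_nn (v : ℕ) : 0 ≤ vR v := by unfold vR; positivity

lemma ble_false {a b : ℕ} (h : ¬ a ≤ b) : Nat.ble a b = false := by
  rw [← Bool.not_eq_true, Nat.ble_eq]
  exact h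

lemma beq_false {a b : ℕ} (h : ¬ a = b) : Nat.beq a b = false := by
  rw [← Bool.not_eq_true]
  intro h2
  exact h (Nat.eq_of_beq_eq_true h2)

lemma vR_mono {a b : ℕ} (h : a ≤ b) : vR a ≤ vR b := by
  unfold vR
  have : (a : ℝ) ≤ b := by exact_mod_cast h
  gcongr

lemma vR_add (a b : ℕ) : vR (a + b) = vR a + vR b := by
  unfold vR; push_cast; ring

lemma vR_one : vR (2 ^ 40) = 1 := by
  unfold vR; push_cast; norm_num

/-- `Nat.sub` is an upper bound of the difference -/
lemma vR_sub_ge (a b : ℕ) : vR a - vR b ≤ vR (a - b) := by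
  rcases le_total b a with h | h
  · have : vR a = vR (a - b) + vR b := by rw [← vR_add]; congr 1; omega
    linarith
  · have := vR_mono h
    have := vR_nn (a - b)
    linarith

/-- quotient of a rounded value -/
lemma vR_div_le (a X : ℕ) : vR (a / X) ≤ vR a / X := by
  unfold vR
  have h1 : ((a / X : ℕ) : ℝ) ≤ (a : ℝ) / X := Nat.cast_div_le
  have h2 := div_le_div_of_nonneg_right h1 (by positivity : (0 : ℝ) ≤ 2 ^ 40)
  refine h2.trans (le_of_eq ?_)
  ring

lemma vR_le_succ_div (a X : ℕ) (hX : 0 < X) : vR a / X ≤ vR (a / X + 1) := by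
  have hXp : (0 : ℝ) < X := by exact_mod_cast hX
  unfold vR
  have h1 : (a : ℝ) / X ≤ ((a / X + 1 : ℕ) : ℝ) := by
    rw [div_le_iff₀ hXp]
    have h3 : a < (a / X + 1) * X := by
      rw [Nat.mul_comm _ X]
      exact Nat.lt_mul_div_succ _ hX
    exact_mod_cast h3.le
  have h2 := div_le_div_of_nonneg_right h1 (by positivity : (0 : ℝ) ≤ 2 ^ 40)
  refine le_trans (le_of_eq ?_) h2
  ring

/-- the real lower bound of `f0^n` -/
noncomputable def Lr (n v e : ℕ) : ℝ :=
  if n % 2 = 0 then vR (N.powL (N.mx (N.pp (v - e)) (N.np (v + e))) n)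
  else if 2 ^ 40 ≤ v - e then vR (N.powL (N.pp (v - e)) n)
  else -vR (N.powU (N.np (v - e)) n)

lemma mx_eq (a b : ℕ) : N.mx a b = max a b := by
  unfold N.mx
  rcases le_or_gt a b with h | h
  · rw [Nat.ble_eq_true_of_le h, cond_true, max_eq_right h]
  · have : Nat.ble a b = false := ble_false (by omega)
    rw [this, cond_false, max_eq_left h.le]

/-- `Lr` is a lower bound -/
lemma Lr_le (hP : GPOW) (n v e : ℕ) (F : ℝ) (hF1 : |F| ≤ 1) (h : |F - (vR v - 1)| ≤ vR e) :
    Lr n v e ≤ F ^ n := by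
  obtain ⟨h1, h2⟩ := abs_le.1 h
  have hl : vR (v - e) - 1 ≤ F := by
    rcases le_total e v with hev | hev
    · have : vR v = vR (v - e) + vR e := by rw [← vR_add]; congr 1; omega
      linarith
    · rw [Nat.sub_eq_zero_of_le hev]
      have h3 := (abs_le.1 hF1).1
      have : vR 0 = 0 := by unfold vR; simp
      linarith
  have hu : F ≤ vR (v + e) - 1 := by rw [vR_add]; linarith
  have hpp : ∀ l : ℕ, vR l - 1 ≤ F → 2 ^ 40 ≤ l → vR (N.pp l) ≤ F := by
    intro l h3 h4
    have : vR l = vR (l - 2 ^ 40) + vR (2 ^ 40) := by rw [← vR_add]; congr 1; omega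
    rw [vR_one] at this
    have e1 : N.pp l = l - 2 ^ 40 := rfl
    rw [e1]
    linarith
  have hnp : ∀ l : ℕ, F ≤ vR l - 1 → l ≤ 2 ^ 40 → F ≤ -vR (N.np l) := by
    intro l h3 h4
    have : vR (2 ^ 40) = vR (2 ^ 40 - l) + vR l := by rw [← vR_add]; congr 1; omega
    rw [vR_one] at this
    have e1 : N.np l = 2 ^ 40 - l := rfl
    rw [e1]
    linarith
  have habs1 : vR (N.pp (v - e)) ≤ |F| := by
    rcases le_total (2 ^ 40) (v - e) with h4 | h4
    · exact (hpp _ hl h4).trans (le_abs_self _)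
    · have e1 : N.pp (v - e) = 0 := Nat.sub_eq_zero_of_le h4
      rw [e1]
      have : vR 0 = 0 := by unfold vR; simp
      rw [this]
      exact abs_nonneg _
  have habs2 : vR (N.np (v + e)) ≤ |F| := by
    rcases le_total (v + e) (2 ^ 40) with h4 | h4
    · have h5 := hnp _ hu h4
      have h6 := neg_abs_le F
      have : vR (N.np (v + e)) ≤ -F := by linarith
      exact this.trans (neg_le_abs F)
    · have e1 : N.np (v + e) = 0 := Nat.sub_eq_zero_of_le h4
      rw [e1]
      have : vR 0 = 0 := by unfold vR; simp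
      rw [this]
      exact abs_nonneg _
  unfold Lr
  split_ifs with c1 c2
  · have h3 : vR (N.mx (N.pp (v - e)) (N.np (v + e))) ≤ |F| := by
      rw [mx_eq]
      rcases le_total (N.pp (v - e)) (N.np (v + e)) with h | h
      · rw [max_eq_right h]; exact habs2
      · rw [max_eq_left h]; exact habs1
    have h4 := (hP.1 (N.mx (N.pp (v - e)) (N.np (v + e))) n).1
    have h5 : vR (N.mx (N.pp (v - e)) (N.np (v + e))) ^ n ≤ |F| ^ n :=
      pow_le_pow_left₀ (vR_nn _) h3 n
    have h6 : |F| ^ n = F ^ n := (Nat.even_iff.2 c1).pow_abs F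
    linarith
  · have h3 := hpp _ hl c2
    have h4 := (hP.1 (N.pp (v - e)) n).1
    have h5 : vR (N.pp (v - e)) ^ n ≤ F ^ n := pow_le_pow_left₀ (vR_nn _) h3 n
    linarith
  · have hodd : Odd n := Nat.odd_iff.2 (by omega)
    have h3 : -vR (N.np (v - e)) ≤ F := by
      have h4 : v - e ≤ 2 ^ 40 := by omega
      have : vR (2 ^ 40) = vR (2 ^ 40 - (v - e)) + vR (v - e) := by
        rw [← vR_add]; congr 1; omega
      rw [vR_one] at this
      have e1 : N.np (v - e) = 2 ^ 40 - (v - e) := rfl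
      rw [e1]
      linarith
    have h4 := (hP.1 (N.np (v - e)) n).2
    have h5 : (-vR (N.np (v - e))) ^ n ≤ F ^ n := (hodd.strictMono_pow (R := ℝ)).monotone h3
    rw [hodd.neg_pow] at h5
    linarith

/-- one step of the accumulator -/
def stp (D : N.Tab) (n : ℕ) (i ih : ℕ) : ℕ :=
  N.frc (Nat.mul (Nat.succ i) (Nat.succ i)) (fun X =>
    N.tay D 14 (Nat.div (Nat.shiftLeft X 40) n) (fun v e => N.frc (Nat.sub v e) (fun l =>
    cond (Nat.beq (Nat.mod n 2) 0)
      (N.addS ih (Nat.div (N.powL (N.mx (N.pp l) (N.np (Nat.add v e))) n) X))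
      (cond (Nat.ble 1099511627776 l) (N.addS ih (Nat.div (N.powL (N.pp l) n) X))
        (Nat.sub ih (Nat.succ (Nat.div (N.powU (N.np l) n) X)))))))

def acc (D : N.Tab) (n : ℕ) (k : ℕ) : ℕ := Nat.rec 1099511627776 (fun i ih => stp D n i ih) k

lemma tn_eq (D : N.Tab) (n : ℕ) : N.tn D n = Nat.sub (acc D n 11)
    (cond (Nat.beq (Nat.mod n 2) 0) 0
      (Nat.succ (Nat.div (Nat.mul 9 (N.powU (N.fld D.U0 (N.idx (Nat.div 9663676416 n))) n)) 100))) :=
  rfl

lemma vR_zero : vR 0 = 0 := by unfold vR; simp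

lemma addS_le (a b : ℕ) (s t : ℝ) (h : a = 0 ∨ vR a ≤ s) (hb : vR b ≤ t) :
    N.addS a b = 0 ∨ vR (N.addS a b) ≤ s + t := by
  unfold N.addS
  rcases h with h | h
  · left
    subst h
    rfl
  · rcases Nat.eq_zero_or_pos a with h0 | h0
    · left
      subst h0
      rfl
    · right
      have : Nat.beq a 0 = false := beq_false (by omega)
      rw [this, cond_false]
      have e1 : vR (Nat.add a b) = vR a + vR b := vR_add a b
      linarith

lemma sub_le (a b : ℕ) (s t : ℝ) (h : a = 0 ∨ vR a ≤ s) (hb : t ≤ vR b) :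
    a - b = 0 ∨ vR (a - b) ≤ s - t := by
  rcases h with h | h
  · left; omega
  · rcases le_total a b with h0 | h0
    · left; omega
    · right
      have : vR a = vR (a - b) + vR b := by rw [← vR_add]; congr 1; omega
      linarith

lemma stp_le (hF : GFLD) (D : N.Tab) (n i ih v e : ℕ) (s : ℝ)
    (ht : ∀ (α : Type) (f : ℕ → ℕ → α),
      N.tay D 14 (((i + 1) * (i + 1)) * 2 ^ 40 / n) f = f v e)
    (h : ih = 0 ∨ vR ih ≤ s) :
    stp D n i ih = 0 ∨ vR (stp D n i ih) ≤ s + Lr n v e / ((i : ℝ) + 1) ^ 2 := by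
  obtain ⟨_, _, _, _, _, _, hfrc⟩ := hF
  have hX : 0 < (i + 1) * (i + 1) := by positivity
  have hXc : (((i + 1) * (i + 1) : ℕ) : ℝ) = ((i : ℝ) + 1) ^ 2 := by push_cast; ring
  have e1 : stp D n i ih = (fun l =>
    cond (Nat.beq (Nat.mod n 2) 0)
      (N.addS ih (Nat.div (N.powL (N.mx (N.pp l) (N.np (Nat.add v e))) n) ((i + 1) * (i + 1))))
      (cond (Nat.ble 1099511627776 l) (N.addS ih (Nat.div (N.powL (N.pp l) n) ((i + 1) * (i + 1))))
        (Nat.sub ih (Nat.succ (Nat.div (N.powU (N.np l) n) ((i + 1) * (i + 1))))))) (v - e) := by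
    unfold stp
    rw [hfrc]
    have e2 : Nat.div (Nat.shiftLeft (Nat.mul (Nat.succ i) (Nat.succ i)) 40) n =
        ((i + 1) * (i + 1)) * 2 ^ 40 / n := by
      exact congrArg (fun t => t / n) (Nat.shiftLeft_eq _ _)
    rw [e2, ht, hfrc]
    rfl
  rw [e1]
  dsimp only
  unfold Lr
  by_cases c1 : n % 2 = 0
  · have b1 : Nat.beq (Nat.mod n 2) 0 = true := by
      rw [Nat.beq_eq]
      exact c1
    rw [b1, cond_true, if_pos c1]
    refine addS_le _ _ _ _ h ?_
    rw [← hXc]
    exact vR_div_le _ _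
  · have b1 : Nat.beq (Nat.mod n 2) 0 = false := beq_false c1
    rw [b1, cond_false, if_neg c1]
    by_cases c2 : 2 ^ 40 ≤ v - e
    · have b2 : Nat.ble 1099511627776 (v - e) = true := Nat.ble_eq_true_of_le c2
      rw [b2, cond_true, if_pos c2]
      refine addS_le _ _ _ _ h ?_
      rw [← hXc]
      exact vR_div_le _ _
    · have b2 : Nat.ble 1099511627776 (v - e) = false := ble_false c2
      rw [b2, cond_false, if_neg c2, neg_div, ← sub_eq_add_neg]
      refine sub_le _ _ _ _ h ?_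
      rw [← hXc]
      exact vR_le_succ_div _ _ hX

end TNNaux

open TNNaux in
theorem gTNN : GTNN := by
  intro hTAY hSQ hF hG hP A B I θ z hT n hn2 hn60
  have h0 : 0 < θ := by have := hT.bf.th0; linarith
  have h1 : θ < 1 / 2 := hT.bf.th1
  set D := N.mkTab B I with hD
  have hnpos : (0 : ℝ) < n := by exact_mod_cast (by omega : 0 < n)
  obtain ⟨_, hE, _⟩ := bECMP θ h0 h1
  -- the trivial bound
  have htriv : (-1 : ℝ) ≤
      ∑' i : ℕ, f0 θ (((i : ℝ) + 1) ^ 2 / n) ^ n / ((i : ℝ) + 1) ^ 2 := by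
    have h2 := hE n (by omega) (fun i => if i = 1 then 0 else -1) 1 (by
      intro i hi1 hi2
      have hb := (aBD h0 h1 (x := (i : ℝ) ^ 2 / (n : ℝ)) (by positivity)).1
      by_cases hi : i = 1
      · rw [if_pos hi, hi]
        have h3 := (aBD h0 h1 (x := ((1 : ℕ) : ℝ) ^ 2 / (n : ℝ)) (by positivity)).2.1
        have h4 : ((1 : ℕ) : ℝ) ^ 2 / (n : ℝ) ≤ 1 := by
          rw [div_le_one hnpos]
          push_cast
          have : (2 : ℝ) ≤ n := by exact_mod_cast hn2
          linarith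
        have h5 : 0 ≤ f0 θ (((1 : ℕ) : ℝ) ^ 2 / (n : ℝ)) := by linarith
        exact pow_nonneg h5 n
      · rw [if_neg hi]
        have h3 : |f0 θ ((i : ℝ) ^ 2 / (n : ℝ)) ^ n| ≤ 1 := by
          rw [abs_pow]
          exact pow_le_one₀ (abs_nonneg _) hb
        exact (abs_le.1 h3).1) (by norm_num) (Or.inr (by
      intro i _
      have hb := (aBD h0 h1 (x := (i : ℝ) ^ 2 / (n : ℝ)) (by positivity)).1
      exact pow_le_one₀ (abs_nonneg _) hb))
    refine le_trans ?_ h2
    rw [show Finset.Icc 1 11 = {1, 2, 3, 4, 5, 6, 7, 8, 9, 10, 11} by decide]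
    norm_num
  -- data of the nodes
  have hnode : ∀ i : ℕ, ∃ v e : ℕ, i < 11 →
      (∀ (α : Type) (f : ℕ → ℕ → α), N.tay D 14 (((i + 1) * (i + 1)) * 2 ^ 40 / n) f = f v e) ∧
      Lr n v e ≤ f0 θ (((i : ℝ) + 1) ^ 2 / n) ^ n := by
    intro i
    by_cases hi : i < 11
    swap
    · exact ⟨0, 0, fun h => absurd h hi⟩
    set x := ((i + 1) * (i + 1)) * 2 ^ 40 / n with hx
    have hX : (i + 1) * (i + 1) ≤ 121 :=
      Nat.mul_le_mul (by omega : i + 1 ≤ 11) (by omega : i + 1 ≤ 11)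
    have hxlt : x < 2 ^ (32 + 14) := by
      rw [hx, Nat.div_lt_iff_lt_mul (by omega)]
      calc ((i + 1) * (i + 1)) * 2 ^ 40 ≤ 121 * 2 ^ 40 := Nat.mul_le_mul_right _ hX
        _ < 2 ^ (32 + 14) * 2 := by norm_num
        _ ≤ 2 ^ (32 + 14) * n := Nat.mul_le_mul_left _ hn2
    obtain ⟨v, e, hve1, hve2⟩ := hTAY hSQ hF hG A B I θ z hT 14 x (Or.inr rfl) hxlt
    refine ⟨v, e, fun _ => ⟨hve1, ?_⟩⟩
    set y : ℝ := ((i : ℝ) + 1) ^ 2 / n with hy
    set w : ℝ := (x : ℝ) / 2 ^ (26 + 14) with hw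
    have hy0 : 0 ≤ y := by positivity
    have hw0 : 0 ≤ w := by positivity
    have hwy : w ≤ y := by
      have h2 : (x : ℝ) ≤ ((((i + 1) * (i + 1)) * 2 ^ 40 : ℕ) : ℝ) / n := Nat.cast_div_le
      rw [hw, div_le_iff₀ (by positivity)]
      refine h2.trans (le_of_eq ?_)
      rw [hy]
      push_cast
      ring
    have hyw : y ≤ w + 1 / 2 ^ 40 := by
      have h3 : ((i + 1) * (i + 1)) * 2 ^ 40 < (x + 1) * n := by
        rw [Nat.mul_comm _ n]
        exact Nat.lt_mul_div_succ _ (by omega)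
      have h4 : ((((i + 1) * (i + 1)) * 2 ^ 40 : ℕ) : ℝ) ≤ ((x + 1 : ℕ) : ℝ) * n := by
        exact_mod_cast h3.le
      have h5 : y * 2 ^ 40 ≤ (x : ℝ) + 1 := by
        rw [hy, div_mul_eq_mul_div, div_le_iff₀ hnpos]
        push_cast at h4
        refine le_trans (le_of_eq ?_) h4
        ring
      have h6 : (w + 1 / 2 ^ 40) * 2 ^ 40 = (x : ℝ) + 1 := by
        rw [hw]
        norm_num
        ring
      rw [← h6] at h5
      exact le_of_mul_le_mul_right h5 (by positivity)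
    have hdiff : |f0 θ y - f0 θ w| ≤ 1 / 2 * (y - w) := by
      have h4 := (convex_Icc w y).norm_image_sub_le_of_norm_hasDerivWithin_le
        (f := f0 θ) (f' := fun x => -(f1 θ x) / 2) (C := 1 / 2)
        (fun t _ => (hasDerivAt_f0 h0 h1 t).hasDerivWithinAt)
        (fun t ht => by
          rw [Real.norm_eq_abs, abs_div, abs_neg, abs_of_pos (by norm_num : (0 : ℝ) < 2)]
          have := (aBD h0 h1 (x := t) (by linarith [ht.1])).2.2.2.1
          linarith) (left_mem_Icc.2 hwy) (right_mem_Icc.2 hwy)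
      rw [Real.norm_eq_abs, Real.norm_eq_abs, abs_of_nonneg (by linarith : 0 ≤ y - w)] at h4
      exact h4
    refine Lr_le hP n v e _ (aBD h0 h1 hy0).1 ?_
    have h7 : |f0 θ y - (vR v - 1)| ≤ |f0 θ y - f0 θ w| + |f0 θ w - (vR v - 1)| :=
      abs_sub_le _ _ _
    have h8 : (1 : ℝ) / 2 * (y - w) ≤ 2 / 2 ^ 40 := by
      have : (1 : ℝ) / 2 * (y - w) ≤ 1 / 2 * (1 / 2 ^ 40) := by linarith
      refine this.trans ?_
      norm_num
    linarith
  choose v e hve using hnode
  -- the invariant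
  have hinv : ∀ k ≤ 11, acc D n k = 0 ∨ vR (acc D n k) ≤
      1 + ∑ i ∈ Finset.range k, Lr n (v i) (e i) / ((i : ℝ) + 1) ^ 2 := by
    intro k
    induction k with
    | zero =>
      intro _
      right
      rw [Finset.sum_range_zero]
      have : acc D n 0 = 2 ^ 40 := rfl
      rw [this, vR_one]
      linarith
    | succ k ih =>
      intro hk
      have h2 := stp_le hF D n k (acc D n k) (v k) (e k) _ (hve k (by omega)).1 (ih (by omega))
      rw [Finset.sum_range_succ, ← add_assoc]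
      exact h2
  have h11 := hinv 11 le_rfl
  rw [tn_eq]
  have hU : ∀ i : ℕ, 12 ≤ i → |f0 θ ((i : ℝ) ^ 2 / (n : ℝ))| ^ n ≤
      vR (N.powU (N.fld D.U0 (N.idx (Nat.div 9663676416 n))) n) := by
    intro i hi
    set y0 := Nat.div 9663676416 n with hy0
    have hk : N.idx y0 ≤ 1152 := by
      rcases lt_or_ge y0 (2 ^ 32) with h | h
      · obtain ⟨k, d, hk, _, _, hi, _⟩ := hG.2.2.2.2.1 y0 h
        omega
      · rw [hG.2.2.2.2.2.1 y0 h]
    have hxk : xR (N.idx y0) ≤ (i : ℝ) ^ 2 / n := by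
      have h2 : (N.xgN (N.idx y0) : ℝ) ≤ y0 := by exact_mod_cast hG.2.2.2.2.2.2.1 y0
      have h3 : (y0 : ℝ) ≤ ((9663676416 : ℕ) : ℝ) / n := Nat.cast_div_le
      have h4 : (12 : ℝ) ≤ i := by exact_mod_cast hi
      have h5 : (12 : ℝ) ^ 2 ≤ (i : ℝ) ^ 2 := by gcongr
      unfold xR aR
      rw [div_le_div_iff₀ (by positivity) hnpos]
      have h6 : (N.xgN (N.idx y0) : ℝ) * n ≤ 9663676416 := by
        have := h2.trans h3
        rw [le_div_iff₀ hnpos] at this
        exact_mod_cast this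
      nlinarith
    have h7 := hT.uf.u0 _ hk _ hxk
    have h8 : |f0 θ ((i : ℝ) ^ 2 / (n : ℝ))| ^ n ≤
        vR (N.fld (N.tU0 B) (N.idx y0)) ^ n := pow_le_pow_left₀ (abs_nonneg _) h7 n
    have h9 : D.U0 = N.tU0 B := by
      rw [hD]
      dsimp only [N.mkTab]
    rw [h9]
    exact h8.trans (hP.1 (N.fld (N.tU0 B) (N.idx y0)) n).2
  have hL := fun (U : ℝ) (hU0 : 0 ≤ U) h => hE n (by omega)
    (fun i => Lr n (v (i - 1)) (e (i - 1))) U (by
      intro i hi1 hi2
      have h2 := (hve (i - 1) (by omega)).2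
      have h3 : (((i - 1 : ℕ) : ℝ) + 1) = i := by
        have : ((i - 1 + 1 : ℕ) : ℝ) = (i : ℝ) := by
          congr 1
          omega
        push_cast at this ⊢
        exact this
      rw [h3] at h2
      exact h2) hU0 h
  have hsum : ∑ i ∈ Finset.Icc 1 11, Lr n (v (i - 1)) (e (i - 1)) / (i : ℝ) ^ 2 =
      ∑ i ∈ Finset.range 11, Lr n (v i) (e i) / ((i : ℝ) + 1) ^ 2 := by
    rw [← Finset.Ico_add_one_right_eq_Icc, Finset.sum_Ico_eq_sum_range]
    refine Finset.sum_congr rfl (fun i _ => ?_)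
    rw [Nat.add_sub_cancel_left]
    push_cast
    rw [add_comm (1 : ℝ)]
  by_cases c1 : n % 2 = 0
  · have b1 : Nat.beq (Nat.mod n 2) 0 = true := by
      rw [Nat.beq_eq]
      exact c1
    rw [b1, cond_true]
    have e2 : Nat.sub (acc D n 11) 0 = acc D n 11 := rfl
    rw [e2]
    rcases h11 with h | h
    · rw [h, vR_zero]
      linarith
    · have h3 := hL 0 le_rfl (Or.inl (Nat.even_iff.2 c1))
      rw [hsum] at h3
      linarith
  · have b1 : Nat.beq (Nat.mod n 2) 0 = false := beq_false c1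
    rw [b1, cond_false]
    set P := N.powU (N.fld D.U0 (N.idx (Nat.div 9663676416 n))) n with hPd
    have h3 := hL (vR P) (vR_nn _) (Or.inr hU)
    rw [hsum] at h3
    have h4 : (0.09 : ℝ) * vR P ≤ vR (9 * P / 100 + 1) := by
      refine le_trans (le_of_eq ?_) (vR_le_succ_div (9 * P) 100 (by norm_num))
      unfold vR
      push_cast
      ring
    have h5 := sub_le (acc D n 11) (9 * P / 100 + 1) _ _ h11 h4
    have e2 : Nat.sub (acc D n 11) (Nat.succ (Nat.div (Nat.mul 9 P) 100)) =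
        acc D n 11 - (9 * P / 100 + 1) := rfl
    rw [e2]
    rcases h5 with h | h
    · rw [h, vR_zero]
      linarith
    · linarith

end Pool.Agent.Helper61.PT
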