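import Pool.Agent.Helper53.PT.GoalsC
import Pool.Agent.Helper53.PT.B

/-!
# MP_705522_gt, `q ∈ (2,4)`: packet IVN (concave majorants and slopes)
-/

set_option autoImplicit false

namespace Pool.Agent.Helper61.PT

open MeasureTheory Set Filter Topology
open Pool.Agent.Helper53.PT

lemma vR_nonneg (v : ℕ) : 0 ≤ vR v := by unfold vR; positivity

lemma ble_false {a b : ℕ} (h : ¬ a ≤ b) : Nat.ble a b = false := by
  rw [← Bool.not_eq_true, Nat.ble_eq]
  exact h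

lemma xR_sub (hG : GGRID) (k : ℕ) (hk : k < 1152) :
    xR (k + 1) - xR k = (2 : ℝ) ^ N.shf k / 2 ^ 26 := by
  obtain ⟨_, _, h3, _⟩ := hG
  unfold xR aR
  rw [(h3 k hk).1]
  push_cast
  ring

lemma xR_lt (hG : GGRID) (k : ℕ) (hk : k < 1152) : xR k < xR (k + 1) := by
  have h := xR_sub hG k hk
  have : (0 : ℝ) < (2 : ℝ) ^ N.shf k / 2 ^ 26 := by positivity
  linarith

lemma xR_last (hG : GGRID) : xR 1152 = 64 := by
  obtain ⟨_, h2, _⟩ := hG
  unfold xR aR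
  rw [h2]
  norm_num

lemma xR_zero (hG : GGRID) : xR 0 = 0 := by
  obtain ⟨h1, _⟩ := hG
  unfold xR aR
  rw [h1]
  norm_num

/-- sum of the cell widths -/
lemma sum_shf (hG : GGRID) : ∀ n ≤ 1152,
    2 ^ 17 * ∑ k ∈ Finset.range n, 2 ^ (N.shf k - 17) = N.xgN n := by
  intro n
  induction n with
  | zero => intro _; rw [Finset.sum_range_zero, hG.1, Nat.mul_zero]
  | succ n ih =>
    intro hn
    have h1 := ih (by omega)
    obtain ⟨h2, h3, _⟩ := hG.2.2.1 n (by omega)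
    rw [Finset.sum_range_succ, Nat.mul_add, h1, h2, ← pow_add]
    congr 2
    omega

/-- the values of `I` at the grid points -/
lemma J_gen (hF : GFLD) (hG : GGRID) (u : ℕ → ℕ) (hu : ∀ k ≤ 1152, u k ≤ 2 ^ 40) :
    ((N.fld6 (N.scanSum (fun k => Nat.shiftLeft (u k) (Nat.sub (N.shf k) 17)) 1152) 0 : ℕ) : ℝ) /
      2 ^ 49 = 0 ∧ ∀ k < 1152,
    ((N.fld6 (N.scanSum (fun k => Nat.shiftLeft (u k) (Nat.sub (N.shf k) 17)) 1152) (k + 1) : ℕ) :
      ℝ) / 2 ^ 49 =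
    ((N.fld6 (N.scanSum (fun k => Nat.shiftLeft (u k) (Nat.sub (N.shf k) 17)) 1152) k : ℕ) : ℝ) /
      2 ^ 49 + (xR (k + 1) - xR k) * vR (u k) := by
  obtain ⟨_, _, _, h4, _⟩ := hF
  have hsh : ∀ k, Nat.shiftLeft (u k) (Nat.sub (N.shf k) 17) = u k * 2 ^ (N.shf k - 17) := by
    intro k
    exact Nat.shiftLeft_eq _ _
  have hlt : ∑ j ∈ Finset.range 1152, Nat.shiftLeft (u j) (Nat.sub (N.shf j) 17) < 2 ^ 56 := by
    have h6 := sum_shf hG 1152 le_rfl
    rw [hG.2.1] at h6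
    have h7 : ∑ k ∈ Finset.range 1152, 2 ^ (N.shf k - 17) = 2 ^ 15 := by
      generalize (∑ k ∈ Finset.range 1152, 2 ^ (N.shf k - 17)) = w at h6 ⊢
      omega
    calc ∑ j ∈ Finset.range 1152, Nat.shiftLeft (u j) (Nat.sub (N.shf j) 17) ≤
        ∑ j ∈ Finset.range 1152, 2 ^ 40 * 2 ^ (N.shf j - 17) := by
          refine Finset.sum_le_sum (fun j hj => ?_)
          rw [hsh]
          exact Nat.mul_le_mul_right _ (hu j (by have := Finset.mem_range.1 hj; omega))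
      _ = 2 ^ 40 * ∑ j ∈ Finset.range 1152, 2 ^ (N.shf j - 17) := (Finset.mul_sum _ _ _).symm
      _ = 2 ^ 40 * 2 ^ 15 := congrArg (fun t => 2 ^ 40 * t) h7
      _ < 2 ^ 56 := by norm_num
  have h8 := h4 _ 1152 hlt
  refine ⟨?_, ?_⟩
  · rw [h8 0 (by norm_num), Finset.sum_range_zero]
    norm_num
  · intro k hk
    rw [h8 (k + 1) (by omega), h8 k (by omega), Finset.sum_range_succ, xR_sub hG k hk, hsh]
    obtain ⟨h9, h10, _⟩ := hG.2.2.1 k hk
    have e : N.shf k = (N.shf k - 17) + 17 := by omega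
    unfold vR
    have e2 : (2 : ℝ) ^ N.shf k = 2 ^ (N.shf k - 17) * 2 ^ 17 := by
      rw [← pow_add, ← e]
    rw [e2]
    push_cast
    ring

/-- `iV` inside the grid -/
lemma iV_cell (hG : GGRID) (I U : ℕ) (x : ℕ) (hx : x < 2 ^ 32) :
    ∃ k < 1152, xR k ≤ aR x ∧ aR x ≤ xR (k + 1) ∧
      (N.iV I U x : ℝ) / 2 ^ 66 = (N.fld6 I k : ℝ) / 2 ^ 49 + (aR x - xR k) * vR (N.fld U k) := by
  obtain ⟨_, _, h3, _, h5, _⟩ := hG
  obtain ⟨k, d, hk, hd, hxk, _, hc⟩ := h5 x hx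
  refine ⟨k, hk, ?_, ?_, ?_⟩
  · unfold xR aR
    have : (N.xgN k : ℝ) ≤ x := by exact_mod_cast (by omega : N.xgN k ≤ x)
    gcongr
  · unfold xR aR
    have : (x : ℝ) ≤ (N.xgN (k + 1) : ℝ) := by
      have h6 := (h3 k hk).1
      exact_mod_cast (by omega : x ≤ N.xgN (k + 1))
    gcongr
  · have h6 : N.iV I U x = N.fld6 I k * 2 ^ 17 + d * N.fld U k := by
      have h7 : Nat.ble 4294967296 x = false := ble_false (by omega)
      unfold N.iV
      rw [h7, cond_false, hc]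
      exact congrArg (fun t => t + d * N.fld U k) (Nat.shiftLeft_eq _ _)
    rw [h6]
    have h8 : aR x - xR k = (d : ℝ) / 2 ^ 26 := by
      unfold xR aR
      rw [hxk]
      push_cast
      ring
    rw [h8]
    unfold vR
    push_cast
    ring

lemma iV_far (I U : ℕ) (x : ℕ) (hx : 2 ^ 32 ≤ x) :
    (N.iV I U x : ℝ) / 2 ^ 66 = (N.fld6 I 1152 : ℝ) / 2 ^ 49 := by
  have h7 : Nat.ble 4294967296 x = true := Nat.ble_eq_true_of_le (by omega)
  have h6 : N.iV I U x = N.fld6 I 1152 * 2 ^ 17 := by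
    unfold N.iV
    rw [h7, cond_true]
    exact Nat.shiftLeft_eq _ _
  rw [h6]
  push_cast
  ring

/-- bound of the total -/
lemma kS_le (I c gn : ℕ) (hg : 1 ≤ gn) :
    (N.fld6 I 1152 : ℝ) / 2 ^ 49 + 64 * vR c / ((gn : ℝ) / 32) ≤
      ((Nat.add (N.fld6 I 1152) (Nat.succ (Nat.div (Nat.shiftLeft c 20) gn)) : ℕ) : ℝ) / 2 ^ 49 := by
  have h1 : Nat.shiftLeft c 20 = c * 2 ^ 20 := Nat.shiftLeft_eq _ _
  have hgp : (0 : ℝ) < gn := by exact_mod_cast hg
  have h2 : ((c * 2 ^ 20 : ℕ) : ℝ) / gn ≤ ((c * 2 ^ 20 / gn + 1 : ℕ) : ℝ) := by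
    rw [div_le_iff₀ hgp]
    have h3 : c * 2 ^ 20 < (c * 2 ^ 20 / gn + 1) * gn := by
      rw [Nat.mul_comm _ gn]
      exact Nat.lt_mul_div_succ _ (by omega)
    exact_mod_cast h3.le
  have h4 : ((Nat.add (N.fld6 I 1152) (Nat.succ (Nat.div (Nat.shiftLeft c 20) gn)) : ℕ) : ℝ) =
      (N.fld6 I 1152 : ℝ) + ((c * 2 ^ 20 / gn + 1 : ℕ) : ℝ) := by
    rw [h1]
    exact_mod_cast rfl
  rw [h4]
  have h5 : 64 * vR c / ((gn : ℝ) / 32) = ((c * 2 ^ 20 : ℕ) : ℝ) / gn / 2 ^ 49 := by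
    unfold vR
    push_cast
    field_simp
    ring
  rw [h5, add_div]
  have h6 : (0 : ℝ) < 2 ^ 49 := by positivity
  have := div_le_div_of_nonneg_right h2 h6.le
  linarith

/-- slopes: the general step -/
lemma slope_gen (hG : GGRID) (I : ℝ → ℝ) (hI : ConcaveOn ℝ (Ici 0) I) (hAV : GAV) (T U : ℕ)
    (f df : ℝ → ℝ) (c : ℝ) (hc : 0 ≤ c) (hf : ∀ x, HasDerivAt f (df x) x)
    (hU : ∀ k ≤ 1152, ∀ y, xR k ≤ y → |df y| ≤ c * vR (N.fld U k))
    (hh : ∀ x y, 0 ≤ y → y ≤ x → |f y - f x| ≤ c * (I x - I y))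
    (hiv : ∀ x : ℕ, x < 2 ^ 32 → (N.iV T U x : ℝ) / 2 ^ 66 = I (aR x)) (y0 x0 : ℕ) (x y : ℝ)
    (h1 : aR y0 ≤ y) (h2 : aR x0 ≤ x) (h3 : y < x) :
    |f y - f x| ≤ c * vR (N.avg T U y0 x0) * (x - y) := by
  have hy0 : 0 ≤ aR y0 := by unfold aR; positivity
  have first : |f y - f x| ≤ c * vR (N.fld U (N.idx y0)) * (x - y) := by
    have hk : N.idx y0 ≤ 1152 := by
      rcases lt_or_ge y0 (2 ^ 32) with h | h
      · obtain ⟨k, d, hk, _, _, hi, _⟩ := hG.2.2.2.2.1 y0 h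
        omega
      · rw [hG.2.2.2.2.2.1 y0 h]
    have hxk : xR (N.idx y0) ≤ aR y0 := by
      unfold xR aR
      have : (N.xgN (N.idx y0) : ℝ) ≤ y0 := by exact_mod_cast hG.2.2.2.2.2.2.1 y0
      gcongr
    have h4 := (convex_Icc y x).norm_image_sub_le_of_norm_hasDerivWithin_le
      (f := f) (f' := df) (C := c * vR (N.fld U (N.idx y0)))
      (fun w _ => (hf w).hasDerivWithinAt)
      (fun w hw => by
        rw [Real.norm_eq_abs]
        exact hU _ hk w (by linarith [hw.1])) (left_mem_Icc.2 h3.le) (right_mem_Icc.2 h3.le)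
    rw [Real.norm_eq_abs, Real.norm_eq_abs, abs_of_pos (by linarith : 0 < x - y)] at h4
    rw [abs_sub_comm]
    exact h4
  unfold N.avg
  by_cases hb1 : x0 ≤ y0 + 8388607
  · have e1 : Nat.ble x0 (Nat.add y0 8388607) = true := Nat.ble_eq_true_of_le hb1
    rw [e1, cond_true, cond_true]
    exact first
  · have e1 : Nat.ble x0 (Nat.add y0 8388607) = false := ble_false hb1
    by_cases hb2 : 4294967296 ≤ x0
    · have e2 : Nat.ble 4294967296 x0 = true := Nat.ble_eq_true_of_le hb2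
      rw [e1, cond_false, e2, cond_true]
      exact first
    · have e2 : Nat.ble 4294967296 x0 = false := ble_false hb2
      rw [e1, cond_false, e2, cond_false]
      have hlt : y0 < x0 := by omega
      have hltR : aR y0 < aR x0 := by
        unfold aR
        have : (y0 : ℝ) < x0 := by exact_mod_cast hlt
        gcongr
      have h4 := hAV.1 I hI (aR y0) (aR x0) y x hy0 hltR h1 h2 h3
      rw [← hiv x0 (by omega), ← hiv y0 (by omega)] at h4
      have h5 : (0 : ℝ) < x0 - y0 := by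
        have : (y0 : ℝ) < x0 := by exact_mod_cast hlt
        linarith
      have h6 : aR x0 - aR y0 = ((x0 : ℝ) - y0) / 2 ^ 26 := by unfold aR; ring
      rw [h6] at h4
      set a := N.iV T U x0
      set b := N.iV T U y0
      have h7 : ((a : ℝ) - b) ≤ ((Nat.succ (Nat.div (Nat.sub a b) (Nat.sub x0 y0)) : ℕ) : ℝ) *
          (x0 - y0) := by
        have h8 : a - b < ((a - b) / (x0 - y0) + 1) * (x0 - y0) := by
          rw [Nat.mul_comm _ (x0 - y0)]
          exact Nat.lt_mul_div_succ _ (by omega)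
        have h9 : (((a - b : ℕ)) : ℝ) ≤ (((a - b) / (x0 - y0) + 1 : ℕ) : ℝ) * ((x0 - y0 : ℕ) : ℝ) := by
          exact_mod_cast h8.le
        rw [Nat.cast_sub hlt.le] at h9
        have h10 : (a : ℝ) - b ≤ ((a - b : ℕ) : ℝ) := by
          rw [sub_le_iff_le_add]
          have : a ≤ (a - b) + b := by omega
          exact_mod_cast this
        exact h10.trans h9
      set w := Nat.succ (Nat.div (Nat.sub a b) (Nat.sub x0 y0))
      have h11 : I x - I y ≤ vR w * (x - y) := by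
        have hxy : 0 < x - y := by linarith
        have h12 : (I x - I y) * ((x0 : ℝ) - y0) ≤ (vR w * (x - y)) * ((x0 : ℝ) - y0) := by
          have h13 : ((a : ℝ) / 2 ^ 66 - (b : ℝ) / 2 ^ 66) * (x - y) ≤
              ((w : ℝ) * (x0 - y0)) / 2 ^ 66 * (x - y) := by
            rw [← sub_div]
            gcongr
          have h14 : (I x - I y) * (((x0 : ℝ) - y0) / 2 ^ 26) ≤
              ((w : ℝ) * (x0 - y0)) / 2 ^ 66 * (x - y) := h4.trans h13
          have h15 : (I x - I y) * ((x0 : ℝ) - y0) =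
              (I x - I y) * (((x0 : ℝ) - y0) / 2 ^ 26) * 2 ^ 26 := by ring
          have h16 : (vR w * (x - y)) * ((x0 : ℝ) - y0) =
              ((w : ℝ) * (x0 - y0)) / 2 ^ 66 * (x - y) * 2 ^ 26 := by
            unfold vR; ring
          rw [h15, h16]
          exact mul_le_mul_of_nonneg_right h14 (by positivity)
        exact le_of_mul_le_mul_right h12 h5
      have h17 := hh x y (by linarith) h3.le
      have h18 := mul_le_mul_of_nonneg_left h11 hc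
      linarith

theorem gIVN : GIVN := by
  intro hF hG A B I θ z hT
  have h0 : 0 < θ := by have := hT.bf.th0; linarith
  have h1 : θ < 1 / 2 := hT.bf.th1
  have hm1 := hT.uf.m1
  have hm2 := hT.uf.m2
  obtain ⟨j1, j1s⟩ := J_gen hF hG (fun k => N.fld (N.tU1 B) k) hm1
  obtain ⟨j2, j2s⟩ := J_gen hF hG (fun k => N.fld (N.tU2 B) k) hm2
  have eI1 : N.scanSum (fun k => Nat.shiftLeft ((fun k => N.fld (N.tU1 B) k) k)
      (Nat.sub (N.shf k) 17)) 1152 = N.tI1 B := rfl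
  have eI2 : N.scanSum (fun k => Nat.shiftLeft ((fun k => N.fld (N.tU2 B) k) k)
      (Nat.sub (N.shf k) 17)) 1152 = N.tI2 B := rfl
  rw [eI1] at j1 j1s
  rw [eI2] at j2 j2s
  have hmono : ∀ a b : ℕ, a ≤ b → vR a ≤ vR b := by
    intro a b hab
    unfold vR
    have : (a : ℝ) ≤ b := by exact_mod_cast hab
    gcongr
  obtain ⟨I1, I2, hFM, hI⟩ := bFMG θ h0 h1 1152 xR (fun k => vR (N.fld (N.tU1 B) k))
    (fun k => vR (N.fld (N.tU2 B) k)) (fun k => (N.fld6 (N.tI1 B) k : ℝ) / 2 ^ 49)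
    (fun k => (N.fld6 (N.tI2 B) k : ℝ) / 2 ^ 49) ((B.gn : ℝ) / 32) (vR B.c0) (vR B.c1) (vR B.c2)
    hT.bf.fp (xR_zero hG) (fun k hk => xR_lt hG k hk) (xR_last hG) (by norm_num)
    (fun k hk y hy => ⟨hT.uf.u1 k hk.le y hy, hT.uf.u2 k hk.le y hy⟩)
    (fun k hk => ⟨hmono _ _ (hT.uf.a1 k (by omega)), hmono _ _ (hT.uf.a2 k (by omega))⟩)
    (by
      have := hT.uf.a1 1151 (by norm_num)
      rw [show 1151 + 1 = 1152 by norm_num, hT.uf.e1] at this
      exact hmono _ _ this)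
    (by
      have := hT.uf.a2 1151 (by norm_num)
      rw [show 1151 + 1 = 1152 by norm_num, hT.uf.e2] at this
      exact hmono _ _ this)
    (vR_nonneg _) (vR_nonneg _) j1 j2 (fun k hk => ⟨j1s k hk, j2s k hk⟩)
  have hv1 : ∀ x : ℕ, x < 2 ^ 32 → (N.iV (N.tI1 B) (N.tU1 B) x : ℝ) / 2 ^ 66 = I1 (aR x) := by
    intro x hx
    obtain ⟨k, hk, a1, a2, a3⟩ := iV_cell hG (N.tI1 B) (N.tU1 B) x hx
    rw [a3, (hI k hk (aR x) a1 a2).1]
  have hv2 : ∀ x : ℕ, x < 2 ^ 32 → (N.iV (N.tI2 B) (N.tU2 B) x : ℝ) / 2 ^ 66 = I2 (aR x) := by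
    intro x hx
    obtain ⟨k, hk, a1, a2, a3⟩ := iV_cell hG (N.tI2 B) (N.tU2 B) x hx
    rw [a3, (hI k hk (aR x) a1 a2).2]
  have h64 := hI 1151 (by norm_num) (xR 1152) (xR_lt hG 1151 (by norm_num)).le le_rfl
  have h64' : I1 64 = (N.fld6 (N.tI1 B) 1152 : ℝ) / 2 ^ 49 ∧
      I2 64 = (N.fld6 (N.tI2 B) 1152 : ℝ) / 2 ^ 49 := by
    have a1 := j1s 1151 (by norm_num)
    have a2 := j2s 1151 (by norm_num)
    rw [← xR_last hG]
    refine ⟨h64.1.trans ?_, h64.2.trans ?_⟩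
    · exact a1.symm
    · exact a2.symm
  have haR : ∀ x : ℕ, 2 ^ 32 ≤ x → (64 : ℝ) ≤ aR x := by
    intro x hx
    unfold aR
    rw [le_div_iff₀ (by positivity)]
    have : ((2 ^ 32 : ℕ) : ℝ) ≤ x := by exact_mod_cast hx
    push_cast at this
    norm_num at this ⊢
    exact this
  have hgn : 1 ≤ B.gn := le_trans (by norm_num) hT.ix.g0
  refine ⟨⟨I1, I2, ?_, ?_⟩, ?_, ?_⟩
  · have k1 := kS_le (N.tI1 B) B.c1 B.gn hgn
    have k2 := kS_le (N.tI2 B) B.c2 B.gn hgn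
    have s1 : N.kS1 (N.mkTab B I) =
        Nat.add (N.fld6 (N.tI1 B) 1152) (Nat.succ (Nat.div (Nat.shiftLeft B.c1 20) B.gn)) := by
      dsimp only [N.kS1, N.mkTab]
    have s2 : N.kS2 (N.mkTab B I) =
        Nat.add (N.fld6 (N.tI2 B) 1152) (Nat.succ (Nat.div (Nat.shiftLeft B.c2 20) B.gn)) := by
      dsimp only [N.kS2, N.mkTab]
    rw [← s1] at k1
    rw [← s2] at k2
    refine ⟨hFM.i1, hFM.i2, hFM.c1, hFM.c2, hFM.m1, hFM.m2, ?_, ?_, hFM.h1, hFM.h2⟩
    · intro x hx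
      exact le_trans (hFM.b1 x hx) k1
    · intro x hx
      exact le_trans (hFM.b2 x hx) k2
  · intro x
    rcases lt_or_ge x (2 ^ 32) with hx | hx
    · exact ⟨(hv1 x hx).le, (hv2 x hx).le⟩
    · rw [iV_far _ _ x hx, iV_far _ _ x hx, ← h64'.1, ← h64'.2]
      have a1 := haR x hx
      have a2 : (64 : ℝ) ∈ Ici (0 : ℝ) := by
        show (0 : ℝ) ≤ 64
        norm_num
      have a3 : aR x ∈ Ici (0 : ℝ) := by
        show (0 : ℝ) ≤ aR x
        linarith
      exact ⟨hFM.m1 a2 a3 a1, hFM.m2 a2 a3 a1⟩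
  · intro y0 x0 x y b1 b2 b3
    have := slope_gen hG I1 hFM.c1 bAV (N.tI1 B) (N.tU1 B) (f0 θ) (fun x => -(f1 θ x) / 2) (1 / 2)
      (by norm_num) (fun x => hasDerivAt_f0 h0 h1 x) (fun k hk y hy => by
        rw [abs_div, abs_neg, abs_of_pos (by norm_num : (0 : ℝ) < 2)]
        have := hT.uf.u1 k hk y hy
        linarith) (fun x y hy hyx => by
        have := hFM.h1 x y hy hyx
        linarith) hv1 y0 x0 x y b1 b2 b3
    refine this.trans (le_of_eq ?_)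
    ring
  · intro y0 x0 x y b1 b2 b3
    have := slope_gen hG I2 hFM.c2 bAV (N.tI2 B) (N.tU2 B) (f1 θ) (fun x => f2 θ x) 1
      (by norm_num) (fun x => hasDerivAt_f1 h0 h1 x) (fun k hk y hy => by
        rw [one_mul]
        exact hT.uf.u2 k hk y hy) (fun x y hy hyx => by
        rw [one_mul]
        exact hFM.h2 x y hy hyx) hv2 y0 x0 x y b1 b2 b3
    refine this.trans (le_of_eq ?_)
    ring

end Pool.Agent.Helper61.PT
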